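import Pool.Agent.H45.EGH.S1

/-!
# EGH: HGA, homogeneous ideals
-/

set_option autoImplicit false

namespace Pool.EGH

open MvPolynomial

namespace HGA

variable {K : Type} [Field K] {N : ℕ}

/-- The components of a product with a form. -/
theorem hc_mul {d : ℕ} {f : PR K N} (hf : f ∈ fm K N d) (z : PR K N) (i : ℕ) :
    homogeneousComponent (d + i) (f * z) = f * homogeneousComponent i z := by
  have hz : f * z = ∑ j ∈ Finset.range (z.totalDegree + 1), f * homogeneousComponent j z := by
    rw [← Finset.mul_sum, sum_homogeneousComponent]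
  rw [hz, map_sum]
  have h1 : ∀ j ∈ Finset.range (z.totalDegree + 1),
      homogeneousComponent (d + i) (f * homogeneousComponent j z) =
        if i = j then f * homogeneousComponent j z else 0 := by
    intro j _
    have hm : f * homogeneousComponent j z ∈ homogeneousSubmodule (Fin N) K (d + j) :=
      (mem_homogeneousSubmodule _ _).2
        (((mem_homogeneousSubmodule _ _).1 hf).mul (homogeneousComponent_isHomogeneous j z))
    rw [homogeneousComponent_of_mem hm]
    by_cases h : i = j
    · rw [if_pos h, if_pos (by rw [h])]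
    · rw [if_neg h, if_neg (by omega)]
  rw [Finset.sum_congr rfl h1, Finset.sum_ite_eq]
  split_ifs with hi
  · rfl
  · rw [homogeneousComponent_eq_zero, mul_zero]
    simp only [Finset.mem_range, not_lt] at hi
    omega

/-- The low components of a product with a form. -/
theorem hc_mul_lt {d : ℕ} {f : PR K N} (hf : f ∈ fm K N d) (z : PR K N) {i : ℕ} (hi : i < d) :
    homogeneousComponent i (f * z) = 0 := by
  have hz : f * z = ∑ j ∈ Finset.range (z.totalDegree + 1), f * homogeneousComponent j z := by
    rw [← Finset.mul_sum, sum_homogeneousComponent]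
  rw [hz, map_sum]
  refine Finset.sum_eq_zero fun j _ => ?_
  have hm : f * homogeneousComponent j z ∈ homogeneousSubmodule (Fin N) K (d + j) :=
    (mem_homogeneousSubmodule _ _).2
      (((mem_homogeneousSubmodule _ _).1 hf).mul (homogeneousComponent_isHomogeneous j z))
  rw [homogeneousComponent_of_mem hm, if_neg (by omega)]

theorem hg_bot : Hg (⊥ : Ideal (PR K N)) := by
  intro f hf d
  rw [Ideal.mem_bot] at hf ⊢
  rw [hf, map_zero]

theorem hg_sup {I J : Ideal (PR K N)} (hI : Hg I) (hJ : Hg J) : Hg (I ⊔ J) := by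
  intro f hf d
  obtain ⟨a, ha, b, hb, rfl⟩ := Submodule.mem_sup.1 hf
  rw [map_add]
  exact add_mem (Ideal.mem_sup_left (hI a ha d)) (Ideal.mem_sup_right (hJ b hb d))

theorem hg_span {d : ℕ} {f : PR K N} (hf : f ∈ fm K N d) : Hg (Ideal.span {f}) := by
  intro g hg i
  obtain ⟨z, rfl⟩ := Ideal.mem_span_singleton'.1 hg
  rw [mul_comm z f]
  by_cases hi : i < d
  · rw [hc_mul_lt hf z hi]
    exact zero_mem _
  · obtain ⟨j, rfl⟩ := Nat.exists_eq_add_of_le (not_lt.1 hi)
    rw [hc_mul hf z j]
    exact Ideal.mul_mem_right _ _ (Ideal.mem_span_singleton_self f)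

theorem hg_cl {I : Ideal (PR K N)} (hI : Hg I) {d : ℕ} {f : PR K N} (hf : f ∈ fm K N d) :
    Hg (clI I f) := by
  intro g hg i
  change f * homogeneousComponent i g ∈ I
  rw [← hc_mul hf g i]
  exact hI _ hg _

theorem hg_mci {k r : ℕ} {J : Ideal (PR K N)} (h : MCI k r J) : Hg J := by
  induction h with
  | zero => exact hg_bot
  | lin _ hl _ ih => exact hg_sup ih (hg_span hl)
  | quad _ hq _ ih => exact hg_sup ih (hg_span hq)

end HGA

/-- HGA: homogeneous ideals. -/
theorem t_HGA : HGAStmt := fun _ _ _ =>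
  ⟨HGA.hg_bot, fun _ _ _ hI hf => ⟨HGA.hg_sup hI (HGA.hg_span hf), HGA.hg_cl hI hf⟩,
    fun _ _ hI hJ => HGA.hg_sup hI hJ, fun _ _ _ h => HGA.hg_mci h⟩

end Pool.EGH
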