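import Pool.Agent.H29.EGH.HGA

/-!
# EGH: GOR, the socle of a complete intersection of quadrics
-/

set_option autoImplicit false

namespace Pool.EGH

open MvPolynomial

/-- GOR: the socle of a complete intersection of `r` quadrics is in degree `r`. -/
theorem t_GOR (hPNS : PNSStmt) (hRLF : RLFStmt) (hPER : PERStmt) : GORStmt := by
  intro K _ _ N k r
  induction r generalizing k with
  | zero =>
    intro Q _ _ s hs
    exact absurd hs (Nat.not_lt_zero s)
  | succ r ih =>
    intro Q hQ hkr s hs z hz hsoc
    cases hQ with
    | @quad k r J q hJ hq hreg =>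
      have hHg : Hg J := HGA.hg_mci hJ
      have hns := hPNS K N k r J hJ (by omega)
      obtain ⟨l, hl, hlr⟩ := hRLF K N J hHg hns
      have hJl := hPER K N k r J l hJ hl hlr
      have hlz : homogeneousComponent (1 + s) (l * z) = l * z := by
        rw [HGA.hc_mul hl, homogeneousComponent_of_mem hz, if_pos rfl]
      obtain ⟨j, hj, w, hw, hjw⟩ := Submodule.mem_sup.1 (hsoc l hl)
      obtain ⟨c, rfl⟩ := Ideal.mem_span_singleton'.1 hw
      cases s with
      | zero =>
        have h1 : l * z = homogeneousComponent (1 + 0) j := by
          rw [← hlz, ← hjw, map_add, mul_comm c q, HGA.hc_mul_lt hq c (by omega), add_zero]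
        exact Ideal.mem_sup_left (hlr z (h1 ▸ hHg j hj _))
      | succ t =>
        set y := homogeneousComponent t c with hy
        have hyt : y ∈ fm K N t := homogeneousComponent_mem t c
        set j1 := homogeneousComponent (2 + t) j with hj1
        have hj1J : j1 ∈ J := hHg j hj _
        have h1 : l * z = j1 + q * y := by
          rw [← hlz, ← hjw, map_add, mul_comm c q, show 1 + (t + 1) = 2 + t by omega,
            HGA.hc_mul hq c t]
        have hyJl : y ∈ J ⊔ Ideal.span {l} := by
          refine ih (k + 1) _ hJl (by omega) t (by omega) y hyt fun m hm => ?_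
          obtain ⟨j', hj', w', hw', hjw'⟩ := Submodule.mem_sup.1 (hsoc m hm)
          obtain ⟨c', rfl⟩ := Ideal.mem_span_singleton'.1 hw'
          have h2 : q * (m * y - l * c') = l * j' - m * j1 := by
            have e1 : l * (m * z) = l * (j' + c' * q) := by rw [hjw']
            have e2 : m * (l * z) = m * (j1 + q * y) := by rw [h1]
            linear_combination e1 - e2
          have h3 : q * (m * y - l * c') ∈ J := by
            rw [h2]
            exact sub_mem (Ideal.mul_mem_left _ _ hj') (Ideal.mul_mem_left _ _ hj1J)
          have h4 := hreg _ h3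
          have h5 : m * y = (m * y - l * c') + l * c' := by ring
          rw [h5]
          exact add_mem (Ideal.mem_sup_left h4)
            (Ideal.mem_sup_right (Ideal.mul_mem_right _ _ (Ideal.mem_span_singleton_self l)))
        obtain ⟨j2, hj2, w2, hw2, hjw2⟩ := Submodule.mem_sup.1 hyJl
        obtain ⟨y2, rfl⟩ := Ideal.mem_span_singleton'.1 hw2
        have h6 : l * (z - q * y2) = j1 + q * j2 := by
          linear_combination h1 - q * hjw2
        have h7 : z - q * y2 ∈ J := hlr _ (by
          rw [h6]
          exact add_mem hj1J (Ideal.mul_mem_left _ _ hj2))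
        have h8 : z = (z - q * y2) + q * y2 := by ring
        rw [h8]
        exact add_mem (Ideal.mem_sup_left h7)
          (Ideal.mem_sup_right (Ideal.mul_mem_right _ _ (Ideal.mem_span_singleton_self q)))

end Pool.EGH
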