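import Pool.Agent.H29.EGH.HGA

/-!
# EGH: HSR, the Hilbert series of a mixed complete intersection
-/

set_option autoImplicit false

namespace Pool.EGH

open MvPolynomial

namespace HSR

variable {K : Type} [Field K] {N : ℕ}

theorem cl_eq {J : Ideal (PR K N)} {f : PR K N} (hr : Rg J f) : clI J f = J := by
  ext z
  constructor
  · intro hz
    exact hr z hz
  · intro hz
    exact J.mul_mem_left f hz

theorem step (hCOL : COLStmt) {J : Ideal (PR K N)} (hJ : Hg J) {d : ℕ} {f : PR K N}
    (hfd : f ∈ fm K N d) (hr : Rg J f) :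
    PowerSeries.mk (fun i => (hf (J ⊔ Ideal.span {f}) i : ℤ)) =
      PowerSeries.mk (fun i => (hf J i : ℤ)) * (1 - PowerSeries.X ^ d) := by
  obtain ⟨h1, h2⟩ := hCOL K N d J f hJ hfd
  rw [cl_eq hr] at h1
  ext n
  rw [mul_sub, mul_one, map_sub, PowerSeries.coeff_mk, PowerSeries.coeff_mk,
    PowerSeries.coeff_mul_X_pow']
  by_cases h : d ≤ n
  · rw [if_pos h, PowerSeries.coeff_mk]
    have h3 := h1 (n - d)
    rw [Nat.sub_add_cancel h] at h3
    omega
  · rw [if_neg h, h2 n (not_le.1 h), sub_zero]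

theorem hf_bot (i : ℕ) : hf (⊥ : Ideal (PR K N)) i = Module.finrank K ↥(fm K N i) := by
  have h : ((⊥ : Ideal (PR K N)).restrictScalars K ⊓ fm K N i) = ⊥ := by
    rw [Submodule.restrictScalars_bot, bot_inf_eq]
  rw [hf, h, finrank_bot, Nat.sub_zero]

end HSR

/-- HSR: the Hilbert series of a mixed complete intersection. -/
theorem t_HSR (hCOL : COLStmt) (hHSB : HSBStmt) : HSRStmt := by
  intro K _ N k r J h
  induction h with
  | zero =>
    simp only [HSR.hf_bot]
    rw [hHSB K N, pow_zero, pow_zero, mul_one]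
  | lin hJ hl hr ih =>
    rw [HSR.step hCOL (HGA.hg_mci hJ) hl hr, pow_one, mul_right_comm, ih]
    ring
  | quad hJ hq hr ih =>
    rw [HSR.step hCOL (HGA.hg_mci hJ) hq hr, mul_right_comm, ih]
    ring

end Pool.EGH
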