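import Pool.Agent.H45.EGH.S3

/-!
# EGH: MAIN
-/

set_option autoImplicit false

namespace Pool.EGH

open MvPolynomial

/-- The main theorem. -/
theorem t_MAIN (hBAC : BACStmt) (hRGL : RGLStmt) (hGRO : GROStmt) (hMAC : MACStmt) :
    MainStmt := by
  rintro K _ n I hn hI ⟨rs, hlen, hrs, hreg⟩ i hi m hm hsum
  obtain ⟨I', rs', hI', hlen', hrs', hreg', hhf⟩ :=
    hBAC K n I rs hI hrs hreg.toIsWeaklyRegular
  have hQ := hRGL (AlgebraicClosure K) n rs' (fun f hf => (hrs' f hf).1) hreg'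
  have hCI : CI n (Ideal.ofList rs') := by
    refine ⟨0, zero_add n, ?_⟩
    rw [hlen', hlen] at hQ
    exact hQ
  have hle : Ideal.ofList rs' ≤ I' := Ideal.span_le.2 fun f hf => (hrs' f hf).2
  obtain ⟨h1, h2⟩ := hGRO (AlgebraicClosure K) n _ I' hn hCI hI' hle i hi
  rw [hhf, hhf] at h2
  rw [hhf] at h1
  exact h2.trans (hMAC i (hf I i) m hi (h1.trans (Nat.choose_le_choose i hn)) hm hsum)

end Pool.EGH
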