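import Pool.Agent.H45.EGH.S2

/-!
# EGH: PAI, the pairing is perfect
-/

set_option autoImplicit false

namespace Pool.EGH

open MvPolynomial

namespace PAI

variable {K : Type} [Field K] {N : ℕ} {Q : Ideal (PR K N)}

theorem mem_gp {i : ℕ} {z : PR K N ⧸ Q} :
    z ∈ gp Q i ↔ ∃ f ∈ fm K N i, Ideal.Quotient.mk Q f = z := Iff.rfl

theorem mk_mem {i : ℕ} {f : PR K N} (hf : f ∈ fm K N i) : Ideal.Quotient.mk Q f ∈ gp Q i :=
  mem_gp.2 ⟨f, hf, rfl⟩

theorem mul_fm {i j : ℕ} {f g : PR K N} (hf : f ∈ fm K N i) (hg : g ∈ fm K N j) :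
    f * g ∈ fm K N (i + j) :=
  (mem_homogeneousSubmodule _ _).2
    (((mem_homogeneousSubmodule _ _).1 hf).mul ((mem_homogeneousSubmodule _ _).1 hg))

end PAI

/-- PAI: the pairing is perfect. -/
theorem t_PAI (hGOR : GORStmt) : PAIStmt := by
  rintro K _ _ N n Q ⟨k, hk, hQ⟩ i j
  induction j generalizing i with
  | zero =>
    intro _ z _ hz0
    refine ⟨1, PAI.mem_gp.2 ⟨1, ?_, map_one _⟩, by rwa [one_mul]⟩
    exact (mem_homogeneousSubmodule _ _).2 (isHomogeneous_one _ _)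
  | succ j ih =>
    intro hij z hz hz0
    obtain ⟨f, hf, rfl⟩ := PAI.mem_gp.1 hz
    have hfQ : f ∉ Q := fun h => hz0 (Ideal.Quotient.eq_zero_iff_mem.2 h)
    have hex : ∃ l ∈ fm K N 1, l * f ∉ Q := by
      by_contra hcon
      exact hfQ (hGOR K N k n Q hQ hk i (by omega) f hf fun l hl => by
        by_contra hlf
        exact hcon ⟨l, hl, hlf⟩)
    obtain ⟨l, hl, hlf⟩ := hex
    obtain ⟨y, hy, hyz⟩ := ih (1 + i) (by omega) (Ideal.Quotient.mk Q (l * f))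
      (PAI.mk_mem (PAI.mul_fm hl hf)) (fun h => hlf (Ideal.Quotient.eq_zero_iff_mem.1 h))
    obtain ⟨g, hg, rfl⟩ := PAI.mem_gp.1 hy
    refine ⟨Ideal.Quotient.mk Q (g * l), PAI.mk_mem (PAI.mul_fm hg hl), fun h => hyz ?_⟩
    rw [← map_mul, ← mul_assoc, map_mul, h]

end Pool.EGH
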