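import Pool.Agent.H29.EGH.HGA

/-!
# EGH: SHP, the shape of a mixed complete intersection
-/

set_option autoImplicit false

namespace Pool.EGH

open MvPolynomial

namespace SHP

variable {K : Type} [Field K] {N : ℕ}

/-- The linear part of an ideal generated by linear forms. -/
theorem hc1_span {L : Submodule K (PR K N)} (hL : L ≤ fm K N 1) {f : PR K N}
    (hf : f ∈ Ideal.span (L : Set (PR K N))) : homogeneousComponent 1 f ∈ L := by
  refine Submodule.closure_induction (p := fun f _ => homogeneousComponent 1 f ∈ L) ?_ ?_ ?_ hf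
  · rw [map_zero]
    exact zero_mem _
  · intro x y _ _ hx hy
    rw [map_add]
    exact add_mem hx hy
  · intro a l hl
    have h1 : homogeneousComponent (1 + 0) (l * a) = l * homogeneousComponent 0 a :=
      HGA.hc_mul (hL hl) a 0
    rw [smul_eq_mul, mul_comm a l]
    change homogeneousComponent (1 + 0) (l * a) ∈ L
    rw [h1, homogeneousComponent_zero, mul_comm, ← smul_eq_C_mul]
    exact L.smul_mem _ hl

/-- The elements of a mixed complete intersection have no constant term. -/
theorem hc0_mci {k r : ℕ} {J : Ideal (PR K N)} (h : MCI k r J) :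
    ∀ f ∈ J, homogeneousComponent 0 f = 0 := by
  have key : ∀ (J : Ideal (PR K N)) (d : ℕ) (q : PR K N), 0 < d → q ∈ fm K N d →
      (∀ f ∈ J, homogeneousComponent 0 f = 0) →
      ∀ f ∈ J ⊔ Ideal.span {q}, homogeneousComponent 0 f = 0 := by
    intro J d q hd hq hJ f hf
    obtain ⟨j, hj, w, hw, rfl⟩ := Submodule.mem_sup.1 hf
    obtain ⟨c, rfl⟩ := Ideal.mem_span_singleton'.1 hw
    rw [map_add, hJ j hj, mul_comm c q, HGA.hc_mul_lt hq c hd, add_zero]
  induction h with
  | zero =>
    intro f hf
    rw [Ideal.mem_bot.1 hf, map_zero]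
  | lin _ hl _ ih => exact key _ 1 _ (by omega) hl ih
  | quad _ hq _ ih => exact key _ 2 _ (by omega) hq ih

/-- A regular element is not in the ideal. -/
theorem not_mem_of_mci {k r : ℕ} {J : Ideal (PR K N)} (h : MCI k r J) {f : PR K N}
    (hr : Rg J f) : f ∉ J := by
  intro hf
  have h1 : (1 : PR K N) ∈ J := hr 1 (by rwa [mul_one])
  have h2 := hc0_mci h 1 h1
  have h3 : homogeneousComponent 0 (1 : PR K N) = 1 := by
    rw [homogeneousComponent_of_mem
      ((mem_homogeneousSubmodule _ _).2 (isHomogeneous_one (Fin N) K)), if_pos rfl]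
  rw [h3] at h2
  exact one_ne_zero h2

end SHP

/-- SHP: the shape of a mixed complete intersection. -/
theorem t_SHP (hFIN : FINStmt) (hLSH : LSHStmt) : SHPStmt := by
  intro K _ N k r
  induction r with
  | zero =>
    intro Q hQ
    obtain ⟨L, hL, hk, rfl⟩ := hLSH K N k Q hQ
    refine ⟨L, ⊥, hL, hk, bot_le, finrank_bot _ _, ?_, ?_⟩
    · have h0 : Ideal.span ((⊥ : Submodule K (PR K N)) : Set (PR K N)) = ⊥ := by
        rw [Ideal.span_eq_bot]
        intro x hx
        exact hx
      rw [h0, sup_bot_eq]
    · intro l hl hlQ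
      have h := SHP.hc1_span hL hlQ
      rwa [homogeneousComponent_of_mem hl, if_pos rfl] at h
  | succ r ih =>
    intro Q hQ
    cases hQ with
    | @quad k r J q hJ hq hreg =>
      obtain ⟨L, V, hL, hk, hV, hr, hJe, hlin⟩ := ih J hJ
      have hqJ : q ∉ J := SHP.not_mem_of_mci hJ hreg
      have hVJ : (V : Set (PR K N)) ⊆ J := by
        intro v hv
        rw [hJe]
        exact Ideal.mem_sup_right (Ideal.subset_span hv)
      have hqV : q ∉ V := fun h => hqJ (hVJ h)
      have hq0 : q ≠ 0 := fun h => hqJ (h ▸ zero_mem J)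
      refine ⟨L, V ⊔ K ∙ q, hL, hk, ?_, ?_, ?_, ?_⟩
      · rw [sup_le_iff, Submodule.span_singleton_le_iff_mem]
        exact ⟨hV, hq⟩
      · have : Module.Finite K ↥(fm K N 2) := hFIN K N 2
        have : Module.Finite K ↥V := Submodule.finiteDimensional_of_le hV
        have h1 := Submodule.finrank_sup_add_finrank_inf_eq V (K ∙ q)
        rw [finrank_span_singleton hq0,
          ((Submodule.disjoint_span_singleton' hq0).2 hqV).eq_bot, finrank_bot, hr] at h1
        omega
      · have h1 : Ideal.span ((V ⊔ K ∙ q : Submodule K (PR K N)) : Set (PR K N)) =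
            Ideal.span (V : Set (PR K N)) ⊔ Ideal.span {q} := by
          apply le_antisymm
          · rw [Ideal.span_le]
            intro x hx
            obtain ⟨v, hv, w, hw, rfl⟩ := Submodule.mem_sup.1 hx
            obtain ⟨c, rfl⟩ := Submodule.mem_span_singleton.1 hw
            refine add_mem (Ideal.mem_sup_left (Ideal.subset_span hv)) (Ideal.mem_sup_right ?_)
            rw [smul_eq_C_mul]
            exact Ideal.mul_mem_left _ _ (Ideal.mem_span_singleton_self q)
          · rw [sup_le_iff]
            constructor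
            · exact Ideal.span_mono fun x hx => Submodule.mem_sup_left hx
            · rw [Ideal.span_le, Set.singleton_subset_iff]
              exact Ideal.subset_span
                (Submodule.mem_sup_right (Submodule.mem_span_singleton_self q))
        rw [h1, ← sup_assoc, ← hJe]
      · intro l hl hlQ
        obtain ⟨j, hj, w, hw, hjw⟩ := Submodule.mem_sup.1 hlQ
        obtain ⟨c, rfl⟩ := Ideal.mem_span_singleton'.1 hw
        have h1 : homogeneousComponent 1 l = l := by
          rw [homogeneousComponent_of_mem hl, if_pos rfl]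
        refine hlin l hl ?_
        rw [← h1, ← hjw, map_add, mul_comm c q, HGA.hc_mul_lt hq c (by omega), add_zero]
        exact HGA.hg_mci hJ j hj 1

end Pool.EGH
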